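import Pool.Agent.H29.SL.KR
import Pool.Agent.H59.SL.SET

/-!
# A congruence that the exponent of the Euler prime cannot satisfy

For no odd perfect number `N = q ^ k * n ^ 2` in Eulerian form is `k + 1` divisible by
`53130 = 2 * 3 * 5 * 7 * 11 * 23`, whatever the prime `q` is.

If `p` is a prime with `p ∣ k + 1` and `p - 1 ∣ k + 1`, then `p ∣ σ(q ^ k)` for every prime
`q ≠ p`: if `q ≡ 1` modulo `p`, then `σ(q ^ k) ≡ k + 1 ≡ 0`, and otherwise
`(q - 1) σ(q ^ k) = q ^ (k + 1) - 1 ≡ 0`. For `53130 ∣ k + 1` this applies to `3, 7, 11, 23`, and an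
odd perfect number is not divisible by `3 * 7 * 11 * 23`: if `3 ^ 2` divides it exactly, then also
`13` divides it; if `3 ^ 4` divides it and `7 ^ 2` divides it exactly, then `19` divides it; if
`3 ^ 4` and `7 ^ 4` divide it, then its abundancy is already larger than `2`; in the first two cases
the additional prime makes the abundancy larger than `2`.
-/

set_option autoImplicit false

namespace Pool.Agent.Results.MP_5b3ee2_nt.ExponentRestriction

theorem result (N : ℕ) (hodd : Odd N) (hperf : Nat.Perfect N) (q k n : ℕ) (hq : q.Prime)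
    (hq4 : q % 4 = 1) (hk4 : k % 4 = 1) (hcop : Nat.Coprime q n) (hN : N = q ^ k * n ^ 2) :
    ¬ 53130 ∣ k + 1 := by
  subst hN
  obtain ⟨d⟩ := Pool.Agent.H59.SL.SET.pf_SET q k n hq hq4 hk4 hcop hodd hperf
  exact Pool.Agent.H29.SL.not_53130 d

end Pool.Agent.Results.MP_5b3ee2_nt.ExponentRestriction
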