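import Pool.Agent.H29.SL.T1
import Pool.Agent.H59.SL.SET

/-!
# A lower bound for `n` in terms of the Euler prime, for every exponent

For every odd perfect number `N = q ^ k * n ^ 2` in Eulerian form, `q ^ (k + 1) ≤ 3 (k + 1) n ^ 2`.

Write `σ(q ^ k) = 2 S`, `σ(n ^ 2) = q ^ k D`, so `n ^ 2 = S D`; the theorem says that the index
`D = σ(n ^ 2) / q ^ k` is at least `min ((q + 1) / 2, 2 q / (3 (k + 1)))`. For a prime `p ∣ n` with
`p ^ a` exactly dividing `n ^ 2` write `σ(p ^ a) = q ^ e u` with `q ∤ u`, so that `D` is the product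
of the `u`. If no prime dividing `(q + 1) / 2` has `e ≥ 1`, then `D ≥ (q + 1) / 2`. If such a prime
exists, let `p ^ c` divide `q + 1` exactly. For `e` odd, `q ^ e ≡ -1` modulo `p ^ c` forces
`u ≥ p ^ c / 2`, and `D` is divisible by `p ^ (a - b)` with `b = c + v_p((k + 1) / 2)` (lifting the
exponent); for `e` even one uses `q ^ 2 ∣ σ(p ^ a)`.
-/

set_option autoImplicit false

namespace Pool.Agent.Results.MP_5b3ee2_nt.IndexBound

theorem result (N : ℕ) (hodd : Odd N) (hperf : Nat.Perfect N) (q k n : ℕ) (hq : q.Prime)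
    (hq4 : q % 4 = 1) (hk4 : k % 4 = 1) (hcop : Nat.Coprime q n) (hN : N = q ^ k * n ^ 2) :
    q ^ (k + 1) ≤ 3 * (k + 1) * n ^ 2 := by
  subst hN
  obtain ⟨d⟩ := Pool.Agent.H59.SL.SET.pf_SET q k n hq hq4 hk4 hcop hodd hperf
  exact Pool.Agent.H29.SL.pf_T1 q k n d

end Pool.Agent.Results.MP_5b3ee2_nt.IndexBound
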