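import Pool.Agent.H29.SL.AE3
import Pool.Agent.H29.SL.T3
import Pool.Agent.H3.SL.W1
import Pool.Agent.H14.SL.M2
import Pool.Agent.H14.SL.M4
import Pool.Agent.H16.SL.CI
import Pool.Agent.H19.SL.C3
import Pool.Agent.H19.SL.E1
import Pool.Agent.H19.SL.L3
import Pool.Agent.H19.SL.X18
import Pool.Agent.H51.SL.EX
import Pool.Agent.H58.SL.ST
import Pool.Agent.H58.SL.ST1
import Pool.Agent.H59.SL.M1
import Pool.Agent.H59.SL.M3
import Pool.Agent.H59.SL.SET

/-!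
# Sorli's conjecture for odd perfect numbers `q ^ k n ^ 2` with `n` below `q ^ (15/4) / 7`

If `N = q ^ k * n ^ 2` is an odd perfect number in Eulerian form and `(7 n) ^ 4 < q ^ 15`, then
`k = 1`.

Write `σ(q ^ k) = 2 S`, `σ(n ^ 2) = q ^ k D`, `n ^ 2 = S D`, and for a prime `p` with `p ^ a`
exactly dividing `n ^ 2` write `σ(p ^ a) = q ^ e u`, `q ∤ u`. Then `D` is the product of the `u` and
the `e` add up to `k`. For `k ≥ 9` the theorem `IndexBound` suffices. For `k = 5`,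
`S = ((q + 1) / 2) W` with `W = q ^ 4 + q ^ 2 + 1`, and the `u` are bounded from below prime by
prime.

* `p ^ c ∣ (q + 1) / 2`: `u ≥ (3/4) p ^ c` or so; for `e` even one needs that
  `Y x ^ 2 - (Y - 1) y ^ 2 = 1` has no solution with `Y` and `x > 1` powers of a prime `p ≥ 5`
  (a Störmer type lemma).
* `p ^ c ∣ W`, `3 ∤ e`: `X = (p - 1) u` satisfies `X ^ 4 + X ^ 2 + 1 ≡ 0` modulo `p ^ c`, so that
  `X ^ 2 ± X + 1 = w p ^ c` with `w ≡ 1` modulo `p - 1`; as `q ^ e X + 1 = p ^ (a + 1)` with `q`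
  prime, `w = 1` is impossible; this and expansions to the base `p - 1` for `c ≤ 3` give
  `u ^ 8 ≥ p ^ (3 c)`.
* `e = 3`: `u` is congruent to `± (1 + p + ... + p ^ (c - 1))`; the only case where `u` is small is
  `c = 1`, `u = 1`, `q ^ 3 = σ(p ^ a)`, and then the other primes use only two factors `q`.

Together `D ≥ const * q * (q ^ 4) ^ (3/8)`.
-/

set_option autoImplicit false

namespace Pool.Agent.Results.MP_5b3ee2_nt.SorliRange

open Pool.Agent.H29.SL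

theorem result (N : ℕ) (hodd : Odd N) (hperf : Nat.Perfect N) (q k n : ℕ) (hq : q.Prime)
    (hq4 : q % 4 = 1) (hk4 : k % 4 = 1) (hcop : Nat.Coprime q n) (hN : N = q ^ k * n ^ 2)
    (hlt : (7 * n) ^ 4 < q ^ 15) : k = 1 := by
  subst hN
  obtain ⟨d⟩ := Pool.Agent.H59.SL.SET.pf_SET q k n hq hq4 hk4 hcop hodd hperf
  have hCI : T_CI := Pool.Agent.H16.SL.pf_CI (Pool.Agent.H58.SL.pf_ST Pool.Agent.H58.SL.pf_ST1)
  have hL3 : T_L3 := Pool.Agent.H19.SL.pf_L3 pf_W1 Pool.Agent.H59.SL.M1.pf_M1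
    Pool.Agent.H14.SL.pf_M2 Pool.Agent.H59.SL.M3.pf_M3 Pool.Agent.H14.SL.pf_M4
    Pool.Agent.H19.SL.pf_X18
  have hC3 : T_C3 := Pool.Agent.H19.SL.pf_C3 hL3
  have hT3 : T_T3 := pf_T3 pf_T1 (pf_AN3 hCI hC3)
    (pf_AE3 hCI hC3 Pool.Agent.H51.SL.pf_EX Pool.Agent.H19.SL.pf_E1)
  by_contra hk
  have h := hT3 q k n d hk
  rw [mul_pow] at hlt
  exact absurd hlt (not_lt.2 h)

end Pool.Agent.Results.MP_5b3ee2_nt.SorliRange
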